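import Mathlib
import Pool.Agent.Y928.PL.Finite

set_option autoImplicit false

/-!
# Consequences of a simultaneous measure of the shape `exp (-C log q log (1 + log q))`

* pairs of linear forms in `1, x, y`;
* the digits of `x` and `y`.
-/

namespace Pool.Agent.X106.DC

open Finset
open Pool.Agent.W47.JL
open Pool.Agent.Y928.PL

/-- the simultaneous measure of the shape `exp (-C log q log (1 + log q))` -/
def MQ (x y C : ℝ) : Prop := ∀ q : ℕ, 2 ≤ q → ∀ a b : ℤ,
  Real.exp (-(C * Real.log q * Real.log (1 + Real.log q))) <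
    max |x - (a : ℝ) / (q : ℝ)| |y - (b : ℝ) / (q : ℝ)|

/-- the terms `s_1, …, s_L` satisfy a linear recurrence of order `m` with rational coefficients -/
def Rec (s : ℕ → ℤ) (L m : ℕ) : Prop :=
  ∃ c : ℕ → ℚ, ∀ i : ℕ, 1 ≤ i → i + m ≤ L →
    (s (i + m) : ℚ) = ∑ j ∈ range m, c j * (s (i + j) : ℚ)

/-- `x = n + ∑_{i ≥ 1} s_i b^(-i)` for some integer `n`, where the integers `s_i` are bounded by
`b ^ h` -/
def Expansion (b h : ℕ) (s : ℕ → ℤ) (x : ℝ) : Prop :=
  (∀ i, |s i| ≤ (b : ℤ) ^ h) ∧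
    ∃ n : ℤ, HasSum (fun i : ℕ => (s (i + 1) : ℝ) / (b : ℝ) ^ (i + 1)) (x - n)

/-- the measure gives irrationality -/
lemma irr_of (x y C : ℝ) (h : MQ x y C) : Irrational x ∨ Irrational y := by
  by_contra hcon
  rw [not_or] at hcon
  obtain ⟨h1, h2⟩ := hcon
  unfold Irrational at h1 h2
  push Not at h1 h2
  obtain ⟨u, hu⟩ := h1
  obtain ⟨v, hv⟩ := h2
  have hq : 2 ≤ 2 * (u.den * v.den) := by
    have := Nat.mul_pos u.den_pos v.den_pos
    omega
  have key := h (2 * (u.den * v.den)) hq (2 * (u.num * v.den)) (2 * (v.num * u.den))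
  have hud : (u.den : ℝ) ≠ 0 := by exact_mod_cast u.den_ne_zero
  have hvd : (v.den : ℝ) ≠ 0 := by exact_mod_cast v.den_ne_zero
  have eu : (u : ℝ) = (u.num : ℝ) / (u.den : ℝ) := by exact_mod_cast (Rat.num_div_den u).symm
  have ev : (v : ℝ) = (v.num : ℝ) / (v.den : ℝ) := by exact_mod_cast (Rat.num_div_den v).symm
  have e1 : x - ((2 * (u.num * v.den) : ℤ) : ℝ) / ((2 * (u.den * v.den) : ℕ) : ℝ) = 0 := by
    rw [← hu, eu]
    push_cast
    field_simp
    ring
  have e2 : y - ((2 * (v.num * u.den) : ℤ) : ℝ) / ((2 * (u.den * v.den) : ℕ) : ℝ) = 0 := by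
    rw [← hv, ev]
    push_cast
    field_simp
    ring
  rw [e1, e2, abs_zero, max_self] at key
  exact absurd key (not_lt.2 (Real.exp_pos _).le)

/-- a short recurrence of an expansion gives a good rational approximation -/
lemma approx (h b : ℕ) (hb : 2 ≤ b) (x : ℝ) (s : ℕ → ℤ) (hs : Expansion b h s x) (L m : ℕ)
    (hr : Rec s L m) :
    ∃ q : ℕ, 1 ≤ q ∧ ∃ p : ℤ,
      (q : ℝ) ≤ Real.exp (17 * (h + 1) * ((m + 1) * Real.log b)) ∧
      |(q : ℝ) * x - p| ≤ Real.exp (17 * (h + 1) * ((m + 1) * Real.log b) - L * Real.log b) := by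
  obtain ⟨c, hc⟩ := hr
  obtain ⟨hs1, n, hn⟩ := hs
  have hbR : (2 : ℝ) ≤ b := by exact_mod_cast hb
  have hb0 : (0 : ℝ) < b := by linarith
  have hlb0 : 0 < Real.log b := Real.log_pos (by linarith)
  obtain ⟨q, hq, p, h1, h2⟩ := core2 (h + 1) b (by omega) hb (x - n) (fun i => s (i + 1))
    (fun i => by
      refine (hs1 (i + 1)).trans ?_
      push_cast
      exact pow_le_pow_right₀ (by exact_mod_cast (by omega : 1 ≤ b)) (by omega)) hn L m c
    (fun i hi => by
      have h1 := hc (i + 1) (by omega) (by omega)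
      rw [show i + m + 1 = i + 1 + m by ring, h1]
      exact Finset.sum_congr rfl fun l _ => by rw [show i + l + 1 = i + 1 + l by ring])
  have hM : (m : ℝ) + 15 * ((h + 1 : ℕ) : ℝ) * err m + ((h + 1 : ℕ) : ℝ) ≤ 17 * (h + 1) * (m + 1) := by
    have h3 := err_le m
    have hh : (0 : ℝ) ≤ h := Nat.cast_nonneg h
    have hm : (0 : ℝ) ≤ m := Nat.cast_nonneg m
    push_cast
    have h4 : 15 * ((h : ℝ) + 1) * err m ≤ 15 * ((h : ℝ) + 1) * (m + 1) :=
      mul_le_mul_of_nonneg_left h3 (by positivity)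
    nlinarith [mul_nonneg hh hm]
  have hexp : ∀ e : ℝ, (b : ℝ) ^ e = Real.exp (e * Real.log b) := fun e => by
    rw [Real.rpow_def_of_pos hb0, mul_comm]
  rw [hexp] at h1 h2
  refine ⟨q, hq, p + q * n, h1.trans (Real.exp_le_exp.2 ?_), ?_⟩
  · nlinarith
  · have e1 : (q : ℝ) * x - ((p + q * n : ℤ) : ℝ) = (q : ℝ) * (x - n) - p := by
      push_cast
      ring
    rw [e1]
    refine h2.trans (Real.exp_le_exp.2 ?_)
    nlinarith

/-- the digits: if the first `L` terms of an expansion of `x` in base `b` satisfy a recurrence of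
order `m` and the first `L'` terms of an expansion of `y` in base `b'` satisfy one of order `m'`, then
`min (L log b) (L' log b') ≤ K U log (2 + U)` with `U = (m + 1) log b + (m' + 1) log b'` -/
theorem digits (x y C : ℝ) (hC : 0 < C) (hM : MQ x y C) (h : ℕ) :
    ∃ K : ℝ, 0 < K ∧ ∀ b b' : ℕ, 2 ≤ b → 2 ≤ b' → ∀ s s' : ℕ → ℤ,
      Expansion b h s x → Expansion b' h s' y → ∀ L L' m m' : ℕ, Rec s L m → Rec s' L' m' →
      ∀ U : ℝ, U = (m + 1) * Real.log b + (m' + 1) * Real.log b' →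
      min (L * Real.log b) (L' * Real.log b') ≤ K * U * Real.log (2 + U) := by
  obtain ⟨A, hA⟩ : ∃ A : ℝ, A = 17 * (h + 1) := ⟨_, rfl⟩
  have hA1 : 1 ≤ A := by
    rw [hA]
    have hh : (0 : ℝ) ≤ h := Nat.cast_nonneg h
    linarith
  have hA0 : 0 < A := by linarith
  have hlA : 0 ≤ Real.log A := Real.log_nonneg hA1
  refine ⟨A + 2 * C * A * (Real.log A + 1), by positivity, ?_⟩
  intro b b' hb hb' s s' hs hs' L L' m m' hr hr' U hU
  have hbR : (2 : ℝ) ≤ b := by exact_mod_cast hb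
  have hbR' : (2 : ℝ) ≤ b' := by exact_mod_cast hb'
  have hl2 : 0.6931471803 < Real.log 2 := Real.log_two_gt_d9
  have hlb : Real.log 2 ≤ Real.log b := Real.log_le_log (by norm_num) hbR
  have hlb' : Real.log 2 ≤ Real.log b' := Real.log_le_log (by norm_num) hbR'
  have hm : (0 : ℝ) ≤ m := Nat.cast_nonneg m
  have hm' : (0 : ℝ) ≤ m' := Nat.cast_nonneg m'
  obtain ⟨q1, hq1, p1, h1, h2⟩ := approx h b hb x s hs L m hr
  obtain ⟨q2, hq2, p2, h3, h4⟩ := approx h b' hb' y s' hs' L' m' hr'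
  rw [← hA] at h1 h2 h3 h4
  obtain ⟨V1, hV1⟩ : ∃ V1 : ℝ, V1 = A * ((m + 1) * Real.log b) := ⟨_, rfl⟩
  obtain ⟨V2, hV2⟩ : ∃ V2 : ℝ, V2 = A * ((m' + 1) * Real.log b') := ⟨_, rfl⟩
  rw [← hV1] at h1 h2
  rw [← hV2] at h3 h4
  have hVU : V1 + V2 = A * U := by rw [hV1, hV2, hU]; ring
  have hV10 : 0 ≤ V1 := by
    rw [hV1]
    have : 0 ≤ Real.log b := by linarith
    positivity
  have hV20 : 0 ≤ V2 := by
    rw [hV2]
    have : 0 ≤ Real.log b' := by linarith
    positivity
  have hU1 : 1 ≤ U := by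
    rw [hU]
    have i1 : 1 * Real.log 2 ≤ (m + 1) * Real.log b :=
      mul_le_mul (by linarith) hlb (by linarith) (by linarith)
    have i2 : 1 * Real.log 2 ≤ (m' + 1) * Real.log b' :=
      mul_le_mul (by linarith) hlb' (by linarith) (by linarith)
    linarith
  have hq1R : (1 : ℝ) ≤ q1 := by exact_mod_cast hq1
  have hq2R : (1 : ℝ) ≤ q2 := by exact_mod_cast hq2
  have hq10 : (q1 : ℝ) ≠ 0 := by linarith
  have hq20 : (q2 : ℝ) ≠ 0 := by linarith
  have key := hM (2 * (q1 * q2)) (by nlinarith) (2 * (q2 * p1)) (2 * (q1 * p2))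
  have e1 : |x - ((2 * (q2 * p1) : ℤ) : ℝ) / ((2 * (q1 * q2) : ℕ) : ℝ)| ≤
      Real.exp (V1 - L * Real.log b) := by
    have e : x - ((2 * (q2 * p1) : ℤ) : ℝ) / ((2 * (q1 * q2) : ℕ) : ℝ) = ((q1 : ℝ) * x - p1) / q1 := by
      push_cast
      field_simp
    rw [e, abs_div, abs_of_nonneg (by linarith : (0 : ℝ) ≤ q1)]
    exact (div_le_self (abs_nonneg _) hq1R).trans h2
  have e2 : |y - ((2 * (q1 * p2) : ℤ) : ℝ) / ((2 * (q1 * q2) : ℕ) : ℝ)| ≤
      Real.exp (V2 - L' * Real.log b') := by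
    have e : y - ((2 * (q1 * p2) : ℤ) : ℝ) / ((2 * (q1 * q2) : ℕ) : ℝ) = ((q2 : ℝ) * y - p2) / q2 := by
      push_cast
      field_simp
    rw [e, abs_div, abs_of_nonneg (by linarith : (0 : ℝ) ≤ q2)]
    exact (div_le_self (abs_nonneg _) hq2R).trans h4
  have e3 : max |x - ((2 * (q2 * p1) : ℤ) : ℝ) / ((2 * (q1 * q2) : ℕ) : ℝ)|
      |y - ((2 * (q1 * p2) : ℤ) : ℝ) / ((2 * (q1 * q2) : ℕ) : ℝ)| ≤
      Real.exp (A * U - min (L * Real.log b) (L' * Real.log b')) := by
    refine max_le (e1.trans (Real.exp_le_exp.2 ?_)) (e2.trans (Real.exp_le_exp.2 ?_))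
    · have := min_le_left (L * Real.log b) (L' * Real.log b')
      linarith
    · have := min_le_right (L * Real.log b) (L' * Real.log b')
      linarith
  have h5 := Real.exp_lt_exp.1 (key.trans_le e3)
  obtain ⟨Q, hQ⟩ : ∃ Q : ℝ, Q = Real.log ((2 * (q1 * q2) : ℕ) : ℝ) := ⟨_, rfl⟩
  rw [← hQ] at h5
  have hQ0 : 0 ≤ Q := by
    rw [hQ]
    apply Real.log_nonneg
    push_cast
    nlinarith
  have hQ1 : Q ≤ 1 + A * U := by
    rw [hQ]
    push_cast
    rw [Real.log_mul (by norm_num) (by positivity), Real.log_mul hq10 hq20]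
    have h6 : Real.log q1 ≤ V1 := by
      rw [Real.log_le_iff_le_exp (by linarith)]; exact h1
    have h7 : Real.log q2 ≤ V2 := by
      rw [Real.log_le_iff_le_exp (by linarith)]; exact h3
    have h8 : Real.log 2 < 0.6931471808 := Real.log_two_lt_d9
    linarith
  have hAU : 1 ≤ A * U := by
    have := mul_le_mul hA1 hU1 zero_le_one hA0.le
    linarith
  have hl3 : 1 ≤ Real.log (2 + U) := by
    rw [Real.le_log_iff_exp_le (by linarith)]
    have := Real.exp_one_lt_d9
    linarith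
  have hlog : Real.log (1 + Q) ≤ (Real.log A + 1) * Real.log (2 + U) := by
    have h6 : Real.log (1 + Q) ≤ Real.log (A * (2 + U)) := by
      apply Real.log_le_log (by linarith)
      have e9 : A * (2 + U) = A + A + A * U := by ring
      rw [e9]
      linarith
    rw [Real.log_mul (by positivity) (by positivity)] at h6
    have e10 : Real.log A * 1 ≤ Real.log A * Real.log (2 + U) := mul_le_mul_of_nonneg_left hl3 hlA
    linarith
  have hl0 : 0 ≤ Real.log (1 + Q) := Real.log_nonneg (by linarith)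
  have h6 : C * Q * Real.log (1 + Q) ≤ C * (2 * (A * U)) * ((Real.log A + 1) * Real.log (2 + U)) := by
    have : Q ≤ 2 * (A * U) := by linarith
    gcongr
  have h7 : A * U ≤ A * U * Real.log (2 + U) :=
    le_mul_of_one_le_right (by linarith) hl3
  have h8 : (A + 2 * C * A * (Real.log A + 1)) * U * Real.log (2 + U) =
      A * U * Real.log (2 + U) + C * (2 * (A * U)) * ((Real.log A + 1) * Real.log (2 + U)) := by ring
  rw [h8]
  linarith

lemma aux_log {H : ℝ} (hH : 2 ≤ H) : 1 ≤ 2 * Real.log (1 + Real.log H) ∧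
    Real.log 4 ≤ 3 * Real.log (1 + Real.log H) := by
  have hl2 : 0.6931471803 < Real.log 2 := Real.log_two_gt_d9
  have hl2' : Real.log 2 < 0.6931471808 := Real.log_two_lt_d9
  have hlH : Real.log 2 ≤ Real.log H := Real.log_le_log (by norm_num) hH
  have h4 : Real.log 4 = 2 * Real.log 2 := by
    rw [show (4 : ℝ) = 2 ^ 2 by norm_num, Real.log_pow]
    norm_num
  have h1 : 1 ≤ 2 * Real.log (1 + Real.log H) := by
    have h2 : Real.exp 1 ≤ (1 + Real.log H) ^ 2 := by
      have := Real.exp_one_lt_d9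
      nlinarith
    have h3 := (Real.le_log_iff_exp_le (lt_of_lt_of_le (Real.exp_pos 1) h2)).2 h2
    rw [Real.log_pow] at h3
    exact_mod_cast h3
  refine ⟨h1, ?_⟩
  rw [h4]
  nlinarith

/-- two independent linear forms in `1, x, y` are not both small -/
theorem forms (x y C : ℝ) (hC : 0 < C) (hM : MQ x y C) :
    ∃ K : ℝ, 0 < K ∧ ∀ u v : Fin 3 → ℤ, LinearIndependent ℤ ![u, v] → ∀ H : ℝ, 2 ≤ H →
      (∀ i, |(u i : ℝ)| ≤ H) → (∀ i, |(v i : ℝ)| ≤ H) →
      Real.exp (-(K * Real.log H * Real.log (1 + Real.log H))) <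
        max |(u 0 : ℝ) + u 1 * x + u 2 * y| |(v 0 : ℝ) + v 1 * x + v 2 * y| := by
  refine ⟨16 * C + 4, by positivity, ?_⟩
  intro u v huv H hH hu hv
  obtain ⟨ε, hε⟩ : ∃ ε : ℝ, ε = max |(u 0 : ℝ) + u 1 * x + u 2 * y|
    |(v 0 : ℝ) + v 1 * x + v 2 * y| := ⟨_, rfl⟩
  have hε1 : |(u 0 : ℝ) + u 1 * x + u 2 * y| ≤ ε := by rw [hε]; exact le_max_left _ _
  have hε2 : |(v 0 : ℝ) + v 1 * x + v 2 * y| ≤ ε := by rw [hε]; exact le_max_right _ _
  rw [← hε]
  have hε0 : 0 ≤ ε := (abs_nonneg _).trans hε1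
  obtain ⟨ha1, ha2⟩ := aux_log hH
  have hl2 : 0.6931471803 < Real.log 2 := Real.log_two_gt_d9
  have hl2' : Real.log 2 < 0.6931471808 := Real.log_two_lt_d9
  have hlH : Real.log 2 ≤ Real.log H := Real.log_le_log (by norm_num) hH
  have hlH0 : 0 < Real.log H := by linarith
  have hLL0 : 0 < Real.log (1 + Real.log H) := by linarith
  have hH0 : 0 < H := by linarith
  -- bound for `2 H`
  have h2H : 2 * H ≤ Real.exp (4 * Real.log H * Real.log (1 + Real.log H)) := by
    calc 2 * H ≤ Real.exp (2 * Real.log H) := by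
          rw [two_mul (Real.log H), Real.exp_add, Real.exp_log hH0]
          nlinarith
      _ ≤ _ := Real.exp_le_exp.2 (by nlinarith)
  -- the combination of two values
  have comb : ∀ s t : ℝ, |s| ≤ H → |t| ≤ H →
      |s * ((u 0 : ℝ) + u 1 * x + u 2 * y) - t * ((v 0 : ℝ) + v 1 * x + v 2 * y)| ≤ 2 * H * ε := by
    intro s t hs ht
    refine (abs_sub _ _).trans ?_
    rw [abs_mul, abs_mul]
    have h1 := mul_le_mul hs hε1 (abs_nonneg _) hH0.le
    have h2 := mul_le_mul ht hε2 (abs_nonneg _) hH0.le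
    linarith
  -- it suffices to bound `2 H ε` from below
  suffices hsuff : Real.exp (-(16 * C * Real.log H * Real.log (1 + Real.log H))) < 2 * H * ε by
    have h1 : Real.exp (-(16 * C * Real.log H * Real.log (1 + Real.log H))) <
        Real.exp (4 * Real.log H * Real.log (1 + Real.log H)) * ε :=
      hsuff.trans_le (mul_le_mul_of_nonneg_right h2H hε0)
    have e : Real.exp (-((16 * C + 4) * Real.log H * Real.log (1 + Real.log H))) =
        Real.exp (-(16 * C * Real.log H * Real.log (1 + Real.log H))) /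
          Real.exp (4 * Real.log H * Real.log (1 + Real.log H)) := by
      rw [← Real.exp_sub]
      congr 1
      ring
    rw [e, div_lt_iff₀ (Real.exp_pos _), mul_comm ε]
    exact h1
  have hone : Real.exp (-(16 * C * Real.log H * Real.log (1 + Real.log H))) < 1 := by
    rw [Real.exp_lt_one_iff]
    have : 0 < 16 * C * Real.log H * Real.log (1 + Real.log H) := by positivity
    linarith
  obtain ⟨Δ, hΔ⟩ : ∃ Δ : ℤ, Δ = u 1 * v 2 - u 2 * v 1 := ⟨_, rfl⟩
  by_cases hΔ0 : Δ = 0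
  · -- the minor vanishes
    have hint : ∀ z : ℤ, z ≠ 0 → (1 : ℝ) ≤ |(z : ℝ)| := by
      intro z hz
      have : (1 : ℤ) ≤ |z| := Int.one_le_abs hz
      exact_mod_cast this
    have hΔR : (u 1 : ℝ) * v 2 - u 2 * v 1 = 0 := by
      have := congrArg (fun z : ℤ => (z : ℝ)) (hΔ.symm.trans hΔ0)
      push_cast at this
      exact this
    by_cases hw1 : v 1 * u 0 - u 1 * v 0 = 0
    · by_cases hw2 : v 2 * u 0 - u 2 * v 0 = 0
      · -- all minors vanish
        exfalso
        rw [LinearIndependent.pair_iff] at huv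
        have hD : u 1 * v 2 - u 2 * v 1 = 0 := by rw [← hΔ]; exact hΔ0
        have hvz : v = 0 := by
          funext i
          have h1 : v i • u + (-(u i)) • v = 0 := by
            funext j
            simp only [Pi.add_apply, Pi.smul_apply, smul_eq_mul, Pi.zero_apply]
            fin_cases i <;> fin_cases j <;>
              simp only [Fin.zero_eta, Fin.mk_one, Fin.reduceFinMk, Fin.isValue] <;> linarith
          exact (huv _ _ h1).1
        have := (huv 0 1 (by rw [hvz]; simp)).2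
        exact one_ne_zero this
      · have h1 := comb (v 2) (u 2) (hv 2) (hu 2)
        have e : (v 2 : ℝ) * ((u 0 : ℝ) + u 1 * x + u 2 * y) - u 2 * ((v 0 : ℝ) + v 1 * x + v 2 * y) =
            ((v 2 * u 0 - u 2 * v 0 : ℤ) : ℝ) := by
          push_cast
          linear_combination x * hΔR
        rw [e] at h1
        exact hone.trans_le ((hint _ hw2).trans h1)
    · have h1 := comb (v 1) (u 1) (hv 1) (hu 1)
      have e : (v 1 : ℝ) * ((u 0 : ℝ) + u 1 * x + u 2 * y) - u 1 * ((v 0 : ℝ) + v 1 * x + v 2 * y) =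
          ((v 1 * u 0 - u 1 * v 0 : ℤ) : ℝ) := by
        push_cast
        linear_combination (-y) * hΔR
      rw [e] at h1
      exact hone.trans_le ((hint _ hw1).trans h1)
  · -- the minor does not vanish
    have hΔR : (Δ : ℝ) = (u 1 : ℝ) * v 2 - u 2 * v 1 := by rw [hΔ]; push_cast; ring
    have hΔ0R : (Δ : ℝ) ≠ 0 := by exact_mod_cast hΔ0
    have hΔ1 : (1 : ℝ) ≤ |(Δ : ℝ)| := by
      have : (1 : ℤ) ≤ |Δ| := Int.one_le_abs hΔ0
      exact_mod_cast this
    have hΔH : |(Δ : ℝ)| ≤ 2 * H ^ 2 := by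
      rw [hΔR]
      refine (abs_sub _ _).trans ?_
      rw [abs_mul, abs_mul]
      have h1 := mul_le_mul (hu 1) (hv 2) (abs_nonneg _) hH0.le
      have h2 := mul_le_mul (hu 2) (hv 1) (abs_nonneg _) hH0.le
      nlinarith
    have hna : ((Δ.natAbs : ℕ) : ℝ) = |(Δ : ℝ)| := by rw [Nat.cast_natAbs, Int.cast_abs]
    have hsg : (Δ : ℝ) = (Δ.sign : ℝ) * |(Δ : ℝ)| := by
      have := congrArg (fun z : ℤ => (z : ℝ)) (Int.sign_mul_abs Δ)
      push_cast at this
      exact this.symm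
    have hsg0 : (Δ.sign : ℝ) ≠ 0 := by
      intro h0
      rw [h0, zero_mul] at hsg
      exact hΔ0R hsg
    have hsg2 : (Δ.sign : ℝ) * (Δ.sign : ℝ) = 1 := by
      have : Δ.sign * Δ.sign = 1 := by
        rcases lt_trichotomy Δ 0 with h0 | h0 | h0
        · rw [Int.sign_eq_neg_one_of_neg h0]; norm_num
        · exact absurd h0 hΔ0
        · rw [Int.sign_eq_one_of_pos h0]; norm_num
      exact_mod_cast this
    have key := hM (2 * Δ.natAbs) (by have := Int.natAbs_pos.2 hΔ0; omega)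
      (2 * (Δ.sign * (u 2 * v 0 - u 0 * v 2))) (2 * (Δ.sign * (u 0 * v 1 - u 1 * v 0)))
    have hdiv : ∀ z : ℤ, ((2 * (Δ.sign * z) : ℤ) : ℝ) / ((2 * Δ.natAbs : ℕ) : ℝ) = (z : ℝ) / Δ := by
      intro z
      push_cast
      rw [hna]
      have h0 : |(Δ : ℝ)| ≠ 0 := by linarith
      rw [div_eq_div_iff (by positivity) hΔ0R]
      calc 2 * ((Δ.sign : ℝ) * z) * Δ = 2 * z * ((Δ.sign : ℝ) * Δ) := by ring
        _ = 2 * z * ((Δ.sign : ℝ) * ((Δ.sign : ℝ) * |(Δ : ℝ)|)) := by rw [← hsg]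
        _ = z * (2 * |(Δ : ℝ)|) * ((Δ.sign : ℝ) * (Δ.sign : ℝ)) := by ring
        _ = _ := by rw [hsg2]; ring
    have q1 : |x - ((2 * (Δ.sign * (u 2 * v 0 - u 0 * v 2)) : ℤ) : ℝ) / ((2 * Δ.natAbs : ℕ) : ℝ)| ≤
        2 * H * ε := by
      rw [hdiv]
      have h1 := comb (v 2) (u 2) (hv 2) (hu 2)
      have e : x - (((u 2 * v 0 - u 0 * v 2 : ℤ)) : ℝ) / Δ =
          ((v 2 : ℝ) * ((u 0 : ℝ) + u 1 * x + u 2 * y) - u 2 * ((v 0 : ℝ) + v 1 * x + v 2 * y)) / Δ := by
        rw [eq_div_iff hΔ0R, sub_mul, div_mul_cancel₀ _ hΔ0R, hΔR]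
        push_cast
        ring
      rw [e, abs_div]
      exact (div_le_self (abs_nonneg _) hΔ1).trans h1
    have q2 : |y - ((2 * (Δ.sign * (u 0 * v 1 - u 1 * v 0)) : ℤ) : ℝ) / ((2 * Δ.natAbs : ℕ) : ℝ)| ≤
        2 * H * ε := by
      rw [hdiv]
      have h1 := comb (v 1) (u 1) (hv 1) (hu 1)
      have e : y - (((u 0 * v 1 - u 1 * v 0 : ℤ)) : ℝ) / Δ =
          -((v 1 : ℝ) * ((u 0 : ℝ) + u 1 * x + u 2 * y) - u 1 * ((v 0 : ℝ) + v 1 * x + v 2 * y)) / Δ := by
        rw [eq_div_iff hΔ0R, sub_mul, div_mul_cancel₀ _ hΔ0R, hΔR]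
        push_cast
        ring
      rw [e, abs_div, abs_neg]
      exact (div_le_self (abs_nonneg _) hΔ1).trans h1
    refine (lt_of_le_of_lt (Real.exp_le_exp.2 ?_) key).trans_le (max_le q1 q2)
    -- comparison of the exponents
    obtain ⟨Q, hQ⟩ : ∃ Q : ℝ, Q = Real.log ((2 * Δ.natAbs : ℕ) : ℝ) := ⟨_, rfl⟩
    rw [← hQ]
    have hQ0 : 0 ≤ Q := by
      rw [hQ]
      apply Real.log_nonneg
      push_cast
      rw [hna]
      linarith
    have hQ1 : Q ≤ 4 * Real.log H := by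
      rw [hQ]
      push_cast
      rw [hna]
      have h1 : 2 * |(Δ : ℝ)| ≤ H ^ 4 := by nlinarith [sq_nonneg (H ^ 2 - 4), sq_nonneg (H - 2)]
      refine (Real.log_le_log (by linarith) h1).trans ?_
      rw [Real.log_pow]
      norm_num
    have hlog : Real.log (1 + Q) ≤ 4 * Real.log (1 + Real.log H) := by
      have h6 : Real.log (1 + Q) ≤ Real.log (4 * (1 + Real.log H)) := by
        apply Real.log_le_log (by linarith)
        linarith
      rw [Real.log_mul (by positivity) (by positivity)] at h6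
      linarith
    have hl0 : 0 ≤ Real.log (1 + Q) := Real.log_nonneg (by linarith)
    have h6 : C * Q * Real.log (1 + Q) ≤ C * (4 * Real.log H) * (4 * Real.log (1 + Real.log H)) := by
      gcongr
    linarith

/-! ### the usual digits -/

/-- the `i`-th digit of `x` after the point in base `b` -/
noncomputable def digit (b : ℕ) (x : ℝ) (i : ℕ) : ℤ := ⌊x * (b : ℝ) ^ i⌋ % (b : ℤ)

lemma floor_step (b : ℕ) (hb : 2 ≤ b) (x : ℝ) (i : ℕ) :
    ⌊x * (b : ℝ) ^ (i + 1)⌋ = b * ⌊x * (b : ℝ) ^ i⌋ + digit b x (i + 1) := by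
  have hb0 : (0 : ℝ) < b := by exact_mod_cast (by omega : 0 < b)
  have h1 : ⌊x * (b : ℝ) ^ (i + 1)⌋ / (b : ℤ) = ⌊x * (b : ℝ) ^ i⌋ := by
    have h2 := Int.floor_div_natCast (x * (b : ℝ) ^ (i + 1)) b
    rw [← h2]
    congr 1
    rw [pow_succ]
    field_simp
  have h3 := Int.mul_ediv_add_emod ⌊x * (b : ℝ) ^ (i + 1)⌋ (b : ℤ)
  rw [h1] at h3
  exact h3.symm

/-- the usual digits form an expansion -/
lemma digit_expansion (b : ℕ) (hb : 2 ≤ b) (x : ℝ) : Expansion b 1 (digit b x) x := by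
  have hb0 : (0 : ℝ) < b := by exact_mod_cast (by omega : 0 < b)
  have hbZ : (0 : ℤ) < b := by exact_mod_cast (by omega : 0 < b)
  have hd0 : ∀ i, 0 ≤ digit b x i := fun i => Int.emod_nonneg _ hbZ.ne'
  have hd1 : ∀ i, digit b x i < b := fun i => Int.emod_lt_of_pos _ hbZ
  refine ⟨fun i => ?_, ⌊x⌋, ?_⟩
  · rw [abs_of_nonneg (hd0 i), pow_one]
    exact (hd1 i).le
  · rw [hasSum_iff_tendsto_nat_of_nonneg]
    · have hpart : ∀ n : ℕ, ∑ i ∈ range n, (digit b x (i + 1) : ℝ) / (b : ℝ) ^ (i + 1) =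
          (⌊x * (b : ℝ) ^ n⌋ : ℝ) / (b : ℝ) ^ n - ⌊x⌋ := by
        intro n
        induction n with
        | zero => simp
        | succ n ih =>
          rw [sum_range_succ, ih, floor_step b hb x n]
          push_cast
          rw [pow_succ]
          field_simp
          ring
      have hlim : Filter.Tendsto (fun n : ℕ => (⌊x * (b : ℝ) ^ n⌋ : ℝ) / (b : ℝ) ^ n)
          Filter.atTop (nhds x) := by
        have h1 : Filter.Tendsto (fun n : ℕ => x - 1 / (b : ℝ) ^ n) Filter.atTop (nhds x) := by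
          have h2 : Filter.Tendsto (fun n : ℕ => (1 / (b : ℝ)) ^ n) Filter.atTop (nhds 0) :=
            tendsto_pow_atTop_nhds_zero_of_lt_one (by positivity) (by
              rw [div_lt_one hb0]
              exact_mod_cast (by omega : 1 < b))
          have h3 := h2.const_sub x
          rw [sub_zero] at h3
          refine h3.congr fun n => ?_
          rw [one_div_pow]
        refine tendsto_of_tendsto_of_tendsto_of_le_of_le h1 tendsto_const_nhds ?_ ?_
        · intro n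
          have hp : (0 : ℝ) < (b : ℝ) ^ n := by positivity
          have h2 := Int.lt_floor_add_one (x * (b : ℝ) ^ n)
          change x - 1 / (b : ℝ) ^ n ≤ (⌊x * (b : ℝ) ^ n⌋ : ℝ) / (b : ℝ) ^ n
          rw [le_div_iff₀ hp, sub_mul, div_mul_cancel₀ _ hp.ne']
          linarith
        · intro n
          have hp : (0 : ℝ) < (b : ℝ) ^ n := by positivity
          change (⌊x * (b : ℝ) ^ n⌋ : ℝ) / (b : ℝ) ^ n ≤ x
          rw [div_le_iff₀ hp]
          exact Int.floor_le _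
      simp only [hpart]
      exact hlim.sub_const _
    · intro i
      have : (0 : ℝ) ≤ (digit b x (i + 1) : ℝ) := by exact_mod_cast hd0 (i + 1)
      positivity

end Pool.Agent.X106.DC
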