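import Mathlib

/-!
# A function of bounded variation on `[0,1)` has an integrable derivative
-/

set_option autoImplicit false

namespace Pool.Agent.X106

open MeasureTheory Set Filter Topology

theorem lintegral_deriv_lt_top {h : ℝ → ℂ} (hV : eVariationOn h (Ico (0 : ℝ) 1) ≠ ⊤) :
    ∫⁻ r in Ioo (0 : ℝ) 1, ‖deriv h r‖ₑ < ⊤ := by
  have hBV : BoundedVariationOn h (Ico (0 : ℝ) 1) := hV
  have hloc := hBV.locallyBoundedVariationOn
  have h0 : (0 : ℝ) ∈ Ico (0 : ℝ) 1 := by simp
  set φ : ℝ → ℝ := fun t => if t < 1 then variationOnFromTo h (Ico 0 1) 0 t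
    else (eVariationOn h (Ico (0 : ℝ) 1)).toReal with hφ
  have hmono : MonotoneOn φ (uIcc 0 1) := by
    rw [uIcc_of_le zero_le_one]
    intro s hs t ht hst
    by_cases ht1 : t < 1
    · have hs1 : s < 1 := lt_of_le_of_lt hst ht1
      simp only [hφ, ht1, hs1, if_true]
      exact variationOnFromTo.monotoneOn hloc h0 ⟨hs.1, hs1⟩ ⟨ht.1, ht1⟩ hst
    · by_cases hs1 : s < 1
      · simp only [hφ, ht1, hs1, if_true, if_false]
        exact (le_abs_self _).trans (variationOnFromTo.abs_le_eVariationOn hBV)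
      · simp only [hφ, ht1, hs1, if_false]
        exact le_rfl
  have hint := hmono.intervalIntegrable_deriv
  rw [intervalIntegrable_iff_integrableOn_Ioc_of_le zero_le_one] at hint
  have hint2 : IntegrableOn (deriv φ) (Ioo 0 1) volume := hint.mono_set Ioo_subset_Ioc_self
  have hfin : ∫⁻ r in Ioo (0 : ℝ) 1, ‖deriv φ r‖ₑ < ⊤ := hint2.2
  refine lt_of_le_of_lt ?_ hfin
  apply lintegral_mono_ae
  rw [ae_restrict_iff' measurableSet_Ioo]
  filter_upwards [hmono.ae_differentiableWithinAt_of_mem] with t ht htt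
  have hmem : uIcc (0 : ℝ) 1 ∈ 𝓝 t := by
    rw [uIcc_of_le zero_le_one]
    exact Icc_mem_nhds htt.1 htt.2
  have hd : DifferentiableAt ℝ φ t :=
    (ht (mem_of_mem_nhds hmem)).differentiableAt hmem
  by_cases hh : DifferentiableAt ℝ h t
  · have key : ‖deriv h t‖ ≤ ‖deriv φ t‖ := by
      have h1 := (hasDerivAt_iff_tendsto_slope.1 hh.hasDerivAt).norm
      have h2 := (hasDerivAt_iff_tendsto_slope.1 hd.hasDerivAt).norm
      refine le_of_tendsto_of_tendsto h1 h2 ?_
      have hnear : ∀ᶠ s in 𝓝[≠] t, s ∈ Ioo (0 : ℝ) 1 :=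
        eventually_nhdsWithin_of_eventually_nhds (Ioo_mem_nhds htt.1 htt.2)
      filter_upwards [hnear] with s hs
      have key2 : ∀ a b : ℝ, a ∈ Ioo (0 : ℝ) 1 → b ∈ Ioo (0 : ℝ) 1 → a ≤ b →
          ‖h b - h a‖ ≤ φ b - φ a := by
        intro a b ha hb hab
        have ha' : a ∈ Ico (0 : ℝ) 1 := ⟨ha.1.le, ha.2⟩
        have hb' : b ∈ Ico (0 : ℝ) 1 := ⟨hb.1.le, hb.2⟩
        have hadd := variationOnFromTo.add hloc h0 ha' hb'
        simp only [hφ, ha.2, hb.2, if_true]
        rw [← hadd, add_sub_cancel_left, variationOnFromTo.eq_of_le h _ hab]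
        have hle : edist (h b) (h a) ≤ eVariationOn h (Ico 0 1 ∩ Icc a b) :=
          eVariationOn.edist_le h ⟨hb', hab, le_rfl⟩ ⟨ha', le_rfl, hab⟩
        have hne : eVariationOn h (Ico 0 1 ∩ Icc a b) ≠ ⊤ := hloc a b ha' hb'
        have := ENNReal.toReal_mono hne hle
        rwa [edist_dist, ENNReal.toReal_ofReal dist_nonneg, dist_eq_norm] at this
      rw [slope_def_module, slope_def_field, norm_smul, norm_div, norm_inv, div_eq_inv_mul]
      apply mul_le_mul_of_nonneg_left _ (by positivity)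
      rcases le_total s t with hst | hst
      · have := key2 s t hs htt hst
        rw [← norm_neg, neg_sub]
        refine this.trans ?_
        rw [← norm_neg (φ s - φ t), neg_sub]
        exact le_abs_self _
      · exact (key2 t s htt hs hst).trans (le_abs_self _)
    rw [← ofReal_norm, ← ofReal_norm]
    exact ENNReal.ofReal_le_ofReal key
  · rw [deriv_zero_of_not_differentiableAt hh]
    simp

end Pool.Agent.X106
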