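import Pool.Agent.X106.KL

/-!
# The sum of `e(2 (n/3)^(3/2))` over a block around `3 m ^ 2`
-/

set_option autoImplicit false

namespace Pool.Agent.X106

open Finset Complex

noncomputable def sq (m t : ℝ) : ℝ := Real.sqrt (m ^ 2 + t / 3)

noncomputable def G (m t : ℝ) : ℝ := (sq m t - m) ^ 2 * (2 * sq m t + m)

lemma sq_nonneg' (m t : ℝ) : 0 ≤ sq m t := Real.sqrt_nonneg _

lemma sq_sq (m t : ℝ) (h : 0 ≤ m ^ 2 + t / 3) : sq m t ^ 2 = m ^ 2 + t / 3 := Real.sq_sqrt h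

lemma diff_lower (m t : ℝ) (h : 0 ≤ m ^ 2 + t / 3) : sq m t - m ≤ G m (t + 1) - G m t := by
  have h1 := sq_sq m t h
  have h2 := sq_sq m (t + 1) (by linarith)
  have p1 := sq_nonneg' m t
  have p2 := sq_nonneg' m (t + 1)
  unfold G
  set s := sq m t
  set s' := sq m (t + 1)
  have h3 : s' ^ 2 - s ^ 2 = 1 / 3 := by rw [h1, h2]; ring
  have h4 : 0 ≤ (s' - s) ^ 2 * (2 * s' + s) := by positivity
  have : (s' - m) ^ 2 * (2 * s' + m) - (s - m) ^ 2 * (2 * s + m) = 2 * (s' ^ 3 - s ^ 3) - 3 * m * (s' ^ 2 - s ^ 2) := by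
    ring
  rw [this, h3]
  have h5 : s = 3 * s * (s' ^ 2 - s ^ 2) := by rw [h3]; ring
  nlinarith

lemma diff_upper (m t : ℝ) (h : 0 ≤ m ^ 2 + t / 3) : G m (t + 1) - G m t ≤ sq m (t + 1) - m := by
  have h1 := sq_sq m t h
  have h2 := sq_sq m (t + 1) (by linarith)
  have p1 := sq_nonneg' m t
  have p2 := sq_nonneg' m (t + 1)
  unfold G
  set s := sq m t
  set s' := sq m (t + 1)
  have h3 : s' ^ 2 - s ^ 2 = 1 / 3 := by rw [h1, h2]; ring
  have h4 : 0 ≤ (s' - s) ^ 2 * (s' + 2 * s) := by positivity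
  have : (s' - m) ^ 2 * (2 * s' + m) - (s - m) ^ 2 * (2 * s + m) = 2 * (s' ^ 3 - s ^ 3) - 3 * m * (s' ^ 2 - s ^ 2) := by
    ring
  rw [this, h3]
  have h5 : s' = 3 * s' * (s' ^ 2 - s ^ 2) := by rw [h3]; ring
  nlinarith

theorem kusmin_landau' (x : ℕ → ℝ) (n : ℕ) (hpos : 0 < x 1 - x 0)
    (hmono : ∀ i, i < n → x (i + 1) - x i ≤ x (i + 2) - x (i + 1))
    (hhalf : ∀ i, i ≤ n → x (i + 1) - x i ≤ 1 / 2) :
    ‖∑ i ∈ range (n + 2), e (x i)‖ ≤ 1 / (Real.pi * (x 1 - x 0)) + 3 / 2 := by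
  rw [Finset.sum_range_succ]
  refine (norm_add_le _ _).trans ?_
  rw [norm_e]
  have := kusmin_landau x n hpos hmono hhalf
  linarith

/-- the right tail -/
lemma right_tail (m T : ℕ) (hT : T + 2 ≤ 3 * m) :
    ‖∑ i ∈ range (3 * m - T), e (G m ((T : ℝ) + 1 + i))‖ ≤
      1 / (Real.pi * (sq m (T + 1) - m)) + 3 / 2 := by
  obtain ⟨n, hn⟩ : ∃ n, 3 * m - T = n + 2 := ⟨3 * m - T - 2, by omega⟩
  rw [hn]
  have hm0 : (0 : ℝ) ≤ m := by positivity
  have hd0 : (sq m (T + 1) - m : ℝ) > 0 := by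
    have : (m : ℝ) < sq m (T + 1) := by
      unfold sq
      apply Real.lt_sqrt_of_sq_lt
      have : (0 : ℝ) < (T + 1 : ℝ) := by positivity
      linarith
    linarith
  have hk := kusmin_landau' (fun i => G m ((T : ℝ) + 1 + i)) n ?_ ?_ ?_
  · refine hk.trans ?_
    have h1 := diff_lower m ((T : ℝ) + 1) (by positivity)
    have hle : (sq m (T + 1) - m : ℝ) ≤
        G m ((T : ℝ) + 1 + ((1 : ℕ) : ℝ)) - G m ((T : ℝ) + 1 + ((0 : ℕ) : ℝ)) := by
      simpa using h1
    have hpi := Real.pi_pos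
    gcongr
  · have h1 := diff_lower m ((T : ℝ) + 1) (by positivity)
    have hle : (sq m (T + 1) - m : ℝ) ≤
        G m ((T : ℝ) + 1 + ((1 : ℕ) : ℝ)) - G m ((T : ℝ) + 1 + ((0 : ℕ) : ℝ)) := by
      simpa using h1
    linarith
  · intro i _
    have h1 := diff_upper m ((T : ℝ) + 1 + i) (by positivity)
    have h2 := diff_lower m ((T : ℝ) + 1 + i + 1) (by positivity)
    push_cast
    rw [show (T : ℝ) + 1 + (i + 1) = (T : ℝ) + 1 + i + 1 by ring,
      show (T : ℝ) + 1 + (i + 2) = (T : ℝ) + 1 + i + 1 + 1 by ring]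
    linarith
  · intro i hi
    have h1 := diff_upper m ((T : ℝ) + 1 + i) (by positivity)
    push_cast
    rw [show (T : ℝ) + 1 + (i + 1) = (T : ℝ) + 1 + i + 1 by ring]
    have h3 : sq m ((T : ℝ) + 1 + i + 1) ≤ m + 1 / 2 := by
      unfold sq
      apply Real.sqrt_le_iff.2
      constructor
      · positivity
      · have h4 : T + 1 + i + 1 ≤ 3 * m := by omega
        have h5 : ((T : ℝ) + 1 + i + 1) ≤ 3 * m := by exact_mod_cast h4
        nlinarith
    linarith

/-- the left tail -/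
lemma left_tail (m T : ℕ) (hT : T + 3 ≤ 3 * m) :
    ‖∑ i ∈ range (3 * m - 1 - T), e (G m (-((T : ℝ) + 1 + i)))‖ ≤
      1 / (Real.pi * (m - sq m (-(T + 1)))) + 3 / 2 := by
  obtain ⟨n, hn⟩ : ∃ n, 3 * m - 1 - T = n + 2 := ⟨3 * m - 1 - T - 2, by omega⟩
  rw [hn]
  have hm0 : (1 : ℝ) ≤ m := by
    have : 1 ≤ m := by omega
    exact_mod_cast this
  have hpos' : ∀ i : ℕ, i ≤ n + 1 → (0 : ℝ) ≤ (m : ℝ) ^ 2 + -((T : ℝ) + 1 + i) / 3 := by
    intro i hi
    have h4 : T + 1 + i ≤ 3 * m := by omega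
    have h5 : ((T : ℝ) + 1 + i) ≤ 3 * m := by exact_mod_cast h4
    nlinarith
  have hd0 : (0 : ℝ) < m - sq m (-(T + 1)) := by
    have : sq m (-(T + 1)) < (m : ℝ) := by
      unfold sq
      rw [Real.sqrt_lt' (by linarith)]
      have : (0 : ℝ) < (T + 1 : ℝ) := by positivity
      linarith
    linarith
  have hk := kusmin_landau' (fun i => G m (-((T : ℝ) + 1 + i))) n ?_ ?_ ?_
  · refine hk.trans ?_
    have h1 := diff_upper m (-((T : ℝ) + 1 + (1 : ℕ))) (hpos' 1 (by omega))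
    have hle : (m - sq m (-(T + 1)) : ℝ) ≤
        G m (-((T : ℝ) + 1 + ((1 : ℕ) : ℝ))) - G m (-((T : ℝ) + 1 + ((0 : ℕ) : ℝ))) := by
      rw [show -((T : ℝ) + 1 + (1 : ℕ)) + 1 = -(T + 1) by push_cast; ring] at h1
      rw [show -((T : ℝ) + 1 + ((0 : ℕ) : ℝ)) = -(T + 1) by push_cast; ring]
      linarith
    have hpi := Real.pi_pos
    gcongr
  · have h1 := diff_upper m (-((T : ℝ) + 1 + (1 : ℕ))) (hpos' 1 (by omega))
    rw [show -((T : ℝ) + 1 + (1 : ℕ)) + 1 = -(T + 1) by push_cast; ring] at h1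
    have hle : (m - sq m (-(T + 1)) : ℝ) ≤
        G m (-((T : ℝ) + 1 + ((1 : ℕ) : ℝ))) - G m (-((T : ℝ) + 1 + ((0 : ℕ) : ℝ))) := by
      rw [show -((T : ℝ) + 1 + ((0 : ℕ) : ℝ)) = -(T + 1) by push_cast; ring]
      linarith
    linarith
  · intro i hi
    have h1 := diff_lower m (-((T : ℝ) + 1 + (i + 1 : ℕ))) (hpos' (i + 1) (by omega))
    have h2 := diff_upper m (-((T : ℝ) + 1 + (i + 2 : ℕ))) (hpos' (i + 2) (by omega))
    have a1 : -((T : ℝ) + 1 + (i + 1 : ℕ)) + 1 = -((T : ℝ) + 1 + i) := by push_cast; ring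
    have a2 : -((T : ℝ) + 1 + (i + 2 : ℕ)) + 1 = -((T : ℝ) + 1 + (i + 1 : ℕ)) := by push_cast; ring
    rw [a1] at h1
    rw [a2] at h2
    show G m (-((T : ℝ) + 1 + (i + 1 : ℕ))) - G m (-((T : ℝ) + 1 + i)) ≤
      G m (-((T : ℝ) + 1 + (i + 2 : ℕ))) - G m (-((T : ℝ) + 1 + (i + 1 : ℕ)))
    linarith
  · intro i hi
    have h1 := diff_lower m (-((T : ℝ) + 1 + (i + 1 : ℕ))) (hpos' (i + 1) (by omega))
    have a1 : -((T : ℝ) + 1 + (i + 1 : ℕ)) + 1 = -((T : ℝ) + 1 + i) := by push_cast; ring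
    rw [a1] at h1
    have h3 : (m : ℝ) - 1 / 2 ≤ sq m (-((T : ℝ) + 1 + (i + 1 : ℕ))) := by
      unfold sq
      apply Real.le_sqrt_of_sq_le
      have h4 : T + 1 + (i + 1) + 1 ≤ 3 * m := by omega
      have h5 : ((T : ℝ) + 1 + (i + 1 : ℕ)) + 1 ≤ 3 * m := by exact_mod_cast h4
      nlinarith
    show G m (-((T : ℝ) + 1 + (i + 1 : ℕ))) - G m (-((T : ℝ) + 1 + i)) ≤ 1 / 2
    linarith

/-- `Re (e(-1/8) e(x)) = cos (2π (x - 1/8))` -/
lemma re_e (x : ℝ) : (e (-1 / 8) * e x).re = Real.cos (2 * Real.pi * (x - 1 / 8)) := by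
  rw [← e_add, e_eq]
  simp only [Complex.add_re, Complex.ofReal_re, Complex.mul_re, Complex.ofReal_im, Complex.I_re,
    Complex.I_im, mul_zero, zero_mul, sub_zero, add_zero]
  congr 1
  ring

lemma mid_term (m : ℕ) (t : ℝ) (hm : 100 ≤ m) (ht : t ^ 2 ≤ 3 * m) :
    (0.687 : ℝ) ≤ (e (-1 / 8) * e (G m t)).re := by
  rw [re_e]
  have hm' : (100 : ℝ) ≤ m := by exact_mod_cast hm
  have htm : |t| ≤ m := by
    apply abs_le_of_sq_le_sq _ (by linarith)
    nlinarith
  have hlo : -(m : ℝ) ≤ t := (abs_le.1 htm).1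
  have hhi : t ≤ m := (abs_le.1 htm).2
  have hnn : (0 : ℝ) ≤ (m : ℝ) ^ 2 + t / 3 := by nlinarith
  have hs := sq_sq m t hnn
  have hs0 := sq_nonneg' (m : ℝ) t
  have hs1 : (0.99 : ℝ) * m ≤ sq m t := by
    unfold sq
    apply Real.le_sqrt_of_sq_le
    nlinarith
  have hG0 : 0 ≤ G m t := by
    unfold G
    positivity
  have hG1 : G m t ≤ 0.2509 := by
    unfold G
    set s := sq m t
    have h3 : (s - m) * (s + m) = t / 3 := by linear_combination hs
    have h4 : (s - m) ^ 2 * (s + m) ^ 2 ≤ m / 3 := by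
      have : (s - m) ^ 2 * (s + m) ^ 2 = t ^ 2 / 9 := by rw [← mul_pow, h3]; ring
      rw [this]; linarith
    have hmpos : (0 : ℝ) < m := by linarith
    have hsm : 0 < s + m := by linarith
    -- (2 s + m) m / 3 ≤ 0.2509 (s+m)^2
    have h5 : (2 * s + m) * (m / 3) ≤ 0.2509 * (s + m) ^ 2 := by
      nlinarith [mul_nonneg (sub_nonneg.2 hs1) hs0, mul_nonneg (sub_nonneg.2 hs1) (sub_nonneg.2 hs1),
        mul_nonneg (sub_nonneg.2 hs1) hmpos.le, mul_pos hmpos hmpos]
    have h6 : (s - m) ^ 2 * (2 * s + m) * (s + m) ^ 2 ≤ 0.2509 * (s + m) ^ 2 := by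
      calc (s - m) ^ 2 * (2 * s + m) * (s + m) ^ 2 = (2 * s + m) * ((s - m) ^ 2 * (s + m) ^ 2) := by ring
        _ ≤ (2 * s + m) * (m / 3) := by
            apply mul_le_mul_of_nonneg_left h4
            linarith
        _ ≤ _ := h5
    exact le_of_mul_le_mul_right h6 (by positivity)
  have hpi := Real.pi_lt_d4
  have hpi0 := Real.pi_pos
  have h1 := Real.one_sub_sq_div_two_le_cos (x := 2 * Real.pi * (G m t - 1 / 8))
  have h2 : (2 * Real.pi * (G m t - 1 / 8)) ^ 2 ≤ 0.6259 := by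
    have h3 : |2 * Real.pi * (G m t - 1 / 8)| ≤ 0.7911 := by
      rw [abs_le]
      constructor
      · nlinarith
      · nlinarith
    have h4 := abs_nonneg (2 * Real.pi * (G m t - 1 / 8))
    rw [← sq_abs]
    nlinarith
  linarith

/-- the block sum has real part (after the rotation by `e(-1/8)`) at least `√m / 10` -/
theorem block (m : ℕ) (hm : 4000 ≤ m) :
    Real.sqrt m / 10 ≤ (e (-1 / 8) * ∑ j ∈ range (6 * m), e (G m ((j : ℝ) - 3 * m + 1))).re := by
  set T := Nat.sqrt (3 * m) with hTdef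
  have hT1 : T * T ≤ 3 * m := Nat.sqrt_le (3 * m)
  have hT2 : 3 * m < (T + 1) * (T + 1) := Nat.lt_succ_sqrt (3 * m)
  have hTm : T + 3 ≤ m := by
    by_contra hcon
    push Not at hcon
    have : m - 2 ≤ T := by omega
    have : (m - 2) * (m - 2) ≤ 3 * m := (Nat.mul_le_mul this this).trans hT1
    obtain ⟨k, rfl⟩ : ∃ k, m = k + 2 := ⟨m - 2, by omega⟩
    simp only [Nat.add_sub_cancel] at this
    nlinarith
  have hm' : (4000 : ℝ) ≤ m := by exact_mod_cast hm
  set a := Real.sqrt (3 * m) with ha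
  have ha2 : a ^ 2 = 3 * m := Real.sq_sqrt (by positivity)
  have ha0 : 0 ≤ a := Real.sqrt_nonneg _
  have ha100 : 100 ≤ a := by
    apply Real.le_sqrt_of_sq_le
    linarith
  have hTa : (T : ℝ) ≤ a := by
    apply Real.le_sqrt_of_sq_le
    have : ((T * T : ℕ) : ℝ) ≤ ((3 * m : ℕ) : ℝ) := by exact_mod_cast hT1
    push_cast at this
    nlinarith
  have hTa' : a ≤ T + 1 := by
    apply Real.sqrt_le_iff.2
    constructor
    · positivity
    · have : ((3 * m : ℕ) : ℝ) ≤ (((T + 1) * (T + 1) : ℕ) : ℝ) := by exact_mod_cast hT2.le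
      push_cast at this
      nlinarith
  have hsplit : 6 * m = (3 * m - 1 - T) + ((2 * T + 1) + (3 * m - T)) := by omega
  have hS : ∑ j ∈ range (6 * m), e (G m ((j : ℝ) - 3 * m + 1)) =
      ∑ i ∈ range (3 * m - 1 - T), e (G m (-((T : ℝ) + 1 + i))) +
      (∑ i ∈ range (2 * T + 1), e (G m ((i : ℝ) - T)) +
       ∑ i ∈ range (3 * m - T), e (G m ((T : ℝ) + 1 + i))) := by
    rw [hsplit, Finset.sum_range_add, Finset.sum_range_add]
    congr 1
    · rw [← Finset.sum_range_reflect]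
      apply Finset.sum_congr rfl
      intro j hj
      rw [Finset.mem_range] at hj
      congr 2
      have h1 : ((3 * m - 1 - T - 1 - j : ℕ) : ℝ) = 3 * m - 1 - T - 1 - j := by
        have : (3 * m - 1 - T - 1 - j) + (1 + T + 1 + j) = 3 * m := by omega
        have := congrArg (fun n : ℕ => (n : ℝ)) this
        push_cast at this
        linarith
      rw [h1]; ring
    · have h1 : ((3 * m - 1 - T : ℕ) : ℝ) = 3 * m - 1 - T := by
        have : (3 * m - 1 - T) + (1 + T) = 3 * m := by omega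
        have := congrArg (fun n : ℕ => (n : ℝ)) this
        push_cast at this
        linarith
      congr 1
      · apply Finset.sum_congr rfl
        intro j hj
        congr 2
        push_cast
        rw [h1]; ring
      · apply Finset.sum_congr rfl
        intro j hj
        congr 2
        push_cast
        rw [h1]; ring
  rw [hS, mul_add, mul_add, Complex.add_re, Complex.add_re]
  -- middle
  have hmid : (0.687 : ℝ) * (2 * T + 1) ≤
      (e (-1 / 8) * ∑ i ∈ range (2 * T + 1), e (G m ((i : ℝ) - T))).re := by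
    rw [Finset.mul_sum, Complex.re_sum]
    have : ∑ i ∈ range (2 * T + 1), (0.687 : ℝ) ≤
        ∑ i ∈ range (2 * T + 1), (e (-1 / 8) * e (G m ((i : ℝ) - T))).re := by
      apply Finset.sum_le_sum
      intro i hi
      rw [Finset.mem_range] at hi
      apply mid_term m _ (by omega)
      have h1 : (i : ℝ) ≤ 2 * T := by exact_mod_cast (by omega : i ≤ 2 * T)
      have h2 : (0 : ℝ) ≤ i := by positivity
      have h3 : ((i : ℝ) - T) ^ 2 ≤ T ^ 2 := by nlinarith
      have h4 : ((T * T : ℕ) : ℝ) ≤ ((3 * m : ℕ) : ℝ) := by exact_mod_cast hT1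
      push_cast at h4
      nlinarith
    rw [Finset.sum_const, Finset.card_range, nsmul_eq_mul] at this
    push_cast at this
    linarith
  have hl := left_tail m T (by omega)
  have hr := right_tail m T (by omega)
  have hl' : -(1 / (Real.pi * (m - sq m (-(T + 1)))) + 3 / 2) ≤
      (e (-1 / 8) * ∑ i ∈ range (3 * m - 1 - T), e (G m (-((T : ℝ) + 1 + i)))).re := by
    have := Complex.abs_re_le_norm (e (-1 / 8) * ∑ i ∈ range (3 * m - 1 - T), e (G m (-((T : ℝ) + 1 + i))))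
    rw [norm_mul, norm_e, one_mul] at this
    have := (abs_le.1 this).1
    linarith
  have hr' : -(1 / (Real.pi * (sq m (T + 1) - m)) + 3 / 2) ≤
      (e (-1 / 8) * ∑ i ∈ range (3 * m - T), e (G m ((T : ℝ) + 1 + i))).re := by
    have := Complex.abs_re_le_norm (e (-1 / 8) * ∑ i ∈ range (3 * m - T), e (G m ((T : ℝ) + 1 + i)))
    rw [norm_mul, norm_e, one_mul] at this
    have := (abs_le.1 this).1
    linarith
  have hpi := Real.pi_gt_d4
  have hpi0 := Real.pi_pos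
  have hTm' : (T : ℝ) + 3 ≤ m := by exact_mod_cast hTm
  have h3 : 1 / (Real.pi * (m - sq m (-(T + 1)))) ≤ 0.64 * a := by
    have hnn : (0 : ℝ) ≤ (m : ℝ) ^ 2 + -((T : ℝ) + 1) / 3 := by nlinarith
    have hs := sq_sq m (-((T : ℝ) + 1)) hnn
    have hs0 := sq_nonneg' (m : ℝ) (-((T : ℝ) + 1))
    set s := sq m (-((T : ℝ) + 1))
    have hsm : s < m := by
      by_contra hcon
      push Not at hcon
      nlinarith
    have h4 : (m - s) * (m + s) = (T + 1) / 3 := by linear_combination -hs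
    have h5 : a / 3 ≤ (m - s) * (2 * m) := by nlinarith
    have h6 : 1 / 2 ≤ (m - s) * a := by
      by_contra hcon
      push Not at hcon
      nlinarith
    rw [div_le_iff₀ (by nlinarith)]
    nlinarith
  have h4 : 1 / (Real.pi * (sq m (T + 1) - m)) ≤ 0.64 * a := by
    have hnn : (0 : ℝ) ≤ (m : ℝ) ^ 2 + ((T : ℝ) + 1) / 3 := by nlinarith
    have hs := sq_sq m ((T : ℝ) + 1) hnn
    have hs0 := sq_nonneg' (m : ℝ) ((T : ℝ) + 1)
    set s := sq m ((T : ℝ) + 1)
    have hsm : m < s := by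
      by_contra hcon
      push Not at hcon
      nlinarith
    have hsm2 : s ≤ 1.001 * m := by
      by_contra hcon
      push Not at hcon
      nlinarith
    have h4 : (s - m) * (m + s) = (T + 1) / 3 := by linear_combination hs
    have h5 : a / 3 ≤ (s - m) * (2.001 * m) := by nlinarith
    have h6 : 1 / 2.001 ≤ (s - m) * a := by
      by_contra hcon
      push Not at hcon
      have h7 : (s - m) * (2.001 * m) * 3 = (s - m) * 2.001 * a ^ 2 := by rw [ha2]; ring
      have h8 : (s - m) * a * (2.001 * a) < 1 / 2.001 * (2.001 * a) :=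
        mul_lt_mul_of_pos_right hcon (by linarith)
      have h9 : 1 / 2.001 * (2.001 * a) = a := by field_simp
      nlinarith
    rw [div_le_iff₀ (by nlinarith)]
    nlinarith
  have h5 : Real.sqrt m / 10 ≤ 0.058 * a := by
    have h6 : Real.sqrt m ≤ 0.58 * a := by
      apply Real.sqrt_le_iff.2
      constructor
      · positivity
      · rw [mul_pow, ha2]; nlinarith
    linarith
  nlinarith

end Pool.Agent.X106
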