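import Mathlib

/-!
# A Kusmin–Landau inequality with explicit constants, and the derivatives of `x ^ (3/2)`
-/

set_option autoImplicit false

namespace Pool.Agent.X106

open Finset Complex

/-- `e(x) = exp(2 π i x)` -/
noncomputable def e (x : ℝ) : ℂ := Complex.exp (2 * (Real.pi : ℂ) * Complex.I * (x : ℂ))

lemma norm_e (x : ℝ) : ‖e x‖ = 1 := by
  unfold e
  rw [show 2 * (Real.pi : ℂ) * Complex.I * (x : ℂ) = ((2 * Real.pi * x : ℝ) : ℂ) * Complex.I by
    push_cast; ring]
  exact Complex.norm_exp_ofReal_mul_I _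

lemma e_add (x y : ℝ) : e (x + y) = e x * e y := by
  unfold e
  rw [← Complex.exp_add]
  congr 1
  push_cast
  ring

lemma e_int (n : ℤ) : e (n : ℝ) = 1 := by
  unfold e
  rw [Complex.exp_eq_one_iff]
  exact ⟨n, by push_cast; ring⟩

lemma e_eq (x : ℝ) : e x = (Real.cos (2 * Real.pi * x) : ℂ) + (Real.sin (2 * Real.pi * x) : ℂ) * Complex.I := by
  unfold e
  rw [show 2 * (Real.pi : ℂ) * Complex.I * (x : ℂ) = ((2 * Real.pi * x : ℝ) : ℂ) * Complex.I by
    push_cast; ring]
  rw [Complex.exp_mul_I]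
  push_cast
  ring

/-- the weight `1 / (1 - e(δ))` -/
noncomputable def w (δ : ℝ) : ℂ :=
  (1 / 2 : ℂ) + ((Real.cos (Real.pi * δ) / Real.sin (Real.pi * δ) / 2 : ℝ) : ℂ) * Complex.I

lemma w_mul (δ : ℝ) (h : Real.sin (Real.pi * δ) ≠ 0) : w δ * (1 - e δ) = 1 := by
  rw [e_eq, w]
  have h2 : 2 * Real.pi * δ = 2 * (Real.pi * δ) := by ring
  rw [h2, Real.cos_two_mul, Real.sin_two_mul]
  have hs := Real.sin_sq_add_cos_sq (Real.pi * δ)
  set s := Real.sin (Real.pi * δ)
  set c := Real.cos (Real.pi * δ)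
  have hs' : (s : ℂ) ^ 2 + (c : ℂ) ^ 2 = 1 := by exact_mod_cast congrArg (fun r : ℝ => (r : ℂ)) hs
  have h' : (s : ℂ) ≠ 0 := by exact_mod_cast h
  have hI := Complex.I_sq
  push_cast
  field_simp
  linear_combination (-2 * (s : ℂ) * (c : ℂ) ^ 2) * hI + (-2 * (c : ℂ) * Complex.I) * hs'

lemma norm_w (δ : ℝ) (h : 0 < Real.sin (Real.pi * δ)) : ‖w δ‖ = 1 / (2 * Real.sin (Real.pi * δ)) := by
  have hs := Real.sin_sq_add_cos_sq (Real.pi * δ)
  have : ‖w δ‖ ^ 2 = (1 / (2 * Real.sin (Real.pi * δ))) ^ 2 := by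
    rw [← Complex.normSq_eq_norm_sq, w, Complex.normSq_apply]
    set s := Real.sin (Real.pi * δ)
    set c := Real.cos (Real.pi * δ)
    simp
    field_simp
    nlinarith [hs]
  exact (pow_left_inj₀ (norm_nonneg _) (by positivity) two_ne_zero).1 this

lemma w_sub (a b : ℝ) : ‖w b - w a‖ =
    |Real.cos (Real.pi * a) / Real.sin (Real.pi * a) - Real.cos (Real.pi * b) / Real.sin (Real.pi * b)| / 2 := by
  rw [w, w]
  rw [show (1 / 2 : ℂ) + ((Real.cos (Real.pi * b) / Real.sin (Real.pi * b) / 2 : ℝ) : ℂ) * Complex.I -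
    ((1 / 2 : ℂ) + ((Real.cos (Real.pi * a) / Real.sin (Real.pi * a) / 2 : ℝ) : ℂ) * Complex.I)
    = (-((Real.cos (Real.pi * a) / Real.sin (Real.pi * a) -
      Real.cos (Real.pi * b) / Real.sin (Real.pi * b)) / 2 : ℝ) : ℂ) * Complex.I by push_cast; ring]
  rw [norm_mul, Complex.norm_I, mul_one, norm_neg, Complex.norm_real, Real.norm_eq_abs, abs_div]
  norm_num

lemma cot_anti {a b : ℝ} (ha : 0 < a) (hab : a ≤ b) (hb : b ≤ 1 / 2) :
    Real.cos (Real.pi * b) / Real.sin (Real.pi * b) ≤ Real.cos (Real.pi * a) / Real.sin (Real.pi * a) := by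
  have hpi := Real.pi_pos
  have hsa : 0 < Real.sin (Real.pi * a) := Real.sin_pos_of_pos_of_lt_pi (by positivity) (by nlinarith)
  have hsb : 0 < Real.sin (Real.pi * b) := Real.sin_pos_of_pos_of_lt_pi (by nlinarith) (by nlinarith)
  rw [div_le_div_iff₀ hsb hsa]
  have h := Real.sin_sub (Real.pi * b) (Real.pi * a)
  have h0 : 0 ≤ Real.sin (Real.pi * b - Real.pi * a) :=
    Real.sin_nonneg_of_nonneg_of_le_pi (by nlinarith) (by nlinarith)
  nlinarith

/-- Kusmin–Landau -/
theorem kusmin_landau (x : ℕ → ℝ) (n : ℕ) (hpos : 0 < x 1 - x 0)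
    (hmono : ∀ i, i < n → x (i + 1) - x i ≤ x (i + 2) - x (i + 1))
    (hhalf : ∀ i, i ≤ n → x (i + 1) - x i ≤ 1 / 2) :
    ‖∑ i ∈ range (n + 1), e (x i)‖ ≤ 1 / (Real.pi * (x 1 - x 0)) + 1 / 2 := by
  have hpi := Real.pi_pos
  set δ : ℕ → ℝ := fun i => x (i + 1) - x i with hδ
  have hδpos : ∀ i, i ≤ n → 0 < δ i := by
    intro i hi
    induction i with
    | zero => simpa [hδ] using hpos
    | succ i ih => exact lt_of_lt_of_le (ih (by omega)) (hmono i (by omega))
  have hsin : ∀ i, i ≤ n → 0 < Real.sin (Real.pi * δ i) := by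
    intro i hi
    have h1 := hδpos i hi
    have h2 : δ i ≤ 1 / 2 := hhalf i hi
    exact Real.sin_pos_of_pos_of_lt_pi (by positivity) (by nlinarith)
  set ct : ℕ → ℝ := fun i => Real.cos (Real.pi * δ i) / Real.sin (Real.pi * δ i) with hct
  have hstep : ∀ i, e (x (i + 1)) = e (x i) * e (δ i) := by
    intro i
    rw [← e_add]
    congr 1
    simp [hδ]
  have hw : ∀ i, i ≤ n → w (δ i) * e (x i) - w (δ i) * e (x (i + 1)) = e (x i) := by
    intro i hi
    have h := w_mul (δ i) (hsin i hi).ne'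
    rw [hstep]
    linear_combination e (x i) * h
  have key : ∀ k, k ≤ n → ‖∑ i ∈ range (k + 1), e (x i) + w (δ k) * e (x (k + 1))‖
      ≤ ‖w (δ 0)‖ + (ct 0 - ct k) / 2 := by
    intro k hk
    induction k with
    | zero =>
      simp only [zero_add, Finset.sum_range_one, sub_self, zero_div, add_zero]
      have h := hw 0 (by omega)
      rw [show e (x 0) + w (δ 0) * e (x 1) = w (δ 0) * e (x 0) by
        linear_combination -h]
      rw [norm_mul, norm_e, mul_one]
    | succ k ih =>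
      rw [Finset.sum_range_succ]
      have h := hw (k + 1) hk
      rw [show ∑ i ∈ range (k + 1), e (x i) + e (x (k + 1)) + w (δ (k + 1)) * e (x (k + 1 + 1))
        = (∑ i ∈ range (k + 1), e (x i) + w (δ k) * e (x (k + 1))) +
          (w (δ (k + 1)) - w (δ k)) * e (x (k + 1)) by linear_combination -h]
      refine (norm_add_le _ _).trans ?_
      rw [norm_mul, norm_e, mul_one, w_sub]
      have h1 := cot_anti (hδpos k (by omega)) (hmono k (by omega)) (hhalf (k + 1) hk)
      rw [abs_of_nonneg (by linarith [h1])]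
      have := ih (by omega)
      simp only [hct] at this ⊢
      linarith
  have hk := key n le_rfl
  have hfin : ‖∑ i ∈ range (n + 1), e (x i)‖ ≤ ‖w (δ 0)‖ + (ct 0 - ct n) / 2 + ‖w (δ n)‖ := by
    have : ∑ i ∈ range (n + 1), e (x i) = (∑ i ∈ range (n + 1), e (x i) + w (δ n) * e (x (n + 1)))
      - w (δ n) * e (x (n + 1)) := by ring
    rw [this]
    refine (norm_sub_le _ _).trans ?_
    rw [norm_mul (w (δ n)), norm_e, mul_one]
    linarith
  refine hfin.trans ?_
  have h0 := hsin 0 (by omega)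
  have hn := hsin n le_rfl
  rw [norm_w _ h0, norm_w _ hn]
  have e1 : 1 / (2 * Real.sin (Real.pi * δ 0)) + ct 0 / 2 ≤ 1 / (Real.pi * (x 1 - x 0)) := by
    have hd : x 1 - x 0 = δ 0 := rfl
    rw [hd]
    have hd0 := hδpos 0 (by omega)
    have hd1 : δ 0 ≤ 1 / 2 := hhalf 0 (by omega)
    simp only [hct]
    set z := Real.pi * δ 0 / 2 with hz
    have hz0 : 0 < z := by positivity
    have hz1 : z < Real.pi / 2 := by rw [hz]; nlinarith
    have h2z : Real.pi * δ 0 = 2 * z := by rw [hz]; ring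
    rw [h2z, Real.sin_two_mul, Real.cos_two_mul]
    have hc : 0 < Real.cos z := Real.cos_pos_of_mem_Ioo ⟨by linarith, hz1⟩
    have hs : 0 < Real.sin z := Real.sin_pos_of_pos_of_lt_pi hz0 (by linarith)
    have ht := Real.lt_tan hz0 hz1
    rw [Real.tan_eq_sin_div_cos, lt_div_iff₀ hc] at ht
    have : 1 / (2 * (2 * Real.sin z * Real.cos z)) + (2 * Real.cos z ^ 2 - 1) / (2 * Real.sin z * Real.cos z) / 2
      = Real.cos z / (2 * Real.sin z) := by
      field_simp
      ring
    rw [this, div_le_div_iff₀ (by positivity) (by positivity)]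
    nlinarith
  have e2 : 1 / (2 * Real.sin (Real.pi * δ n)) - ct n / 2 ≤ 1 / 2 := by
    simp only [hct]
    have hd0 := hδpos n le_rfl
    have hd1 : δ n ≤ 1 / 2 := hhalf n le_rfl
    have hc : 0 ≤ Real.cos (Real.pi * δ n) := Real.cos_nonneg_of_mem_Icc ⟨by nlinarith, by nlinarith⟩
    have hss := Real.sin_sq_add_cos_sq (Real.pi * δ n)
    set s := Real.sin (Real.pi * δ n)
    set c := Real.cos (Real.pi * δ n)
    have h1 : 1 - c ≤ s := by
      by_contra hcon
      push Not at hcon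
      nlinarith
    rw [show 1 / (2 * s) - c / s / 2 = (1 - c) / (2 * s) by field_simp]
    rw [div_le_div_iff₀ (by positivity) (by norm_num)]
    linarith
  linarith

end Pool.Agent.X106
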